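import Pool.Agent.Helper3_CTD.C8

/-! # CTD module C3: closing off -/

set_option autoImplicit false

open Set

namespace Pool.Agent.CTD.H3

/-- one step of the closing off -/
theorem c3_step (R : Nd → Set Th) (hR : ∀ t, (R t).Countable) (hR2 : ∀ t, ∀ γ ∈ R t, γ < t.len)
    (S : Set Nd) (h8 : C8Ex) (hS : RC S) (F : Set Nd) (hF : F.Countable) (q : Cnd) :
    ∃ q' ≤ q, (∀ t ∈ F, t ∉ S → 0 < t.len → ∃ θ : W1, ∀ ξ, q'.1 t ξ ≠ none ↔ ξ < θ) ∧
      (∀ t ∈ F, t ∉ S → ∀ γ ∈ R t, ent q'.1 t γ) ∧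
      (∀ t ∈ F, t ∉ S → ∀ t' ∈ F, t' ∉ S → exn S t = exn S t' →
        ∀ γ < exl S t, ent q.1 t' γ → ent q'.1 t γ) ∧
      (∀ t ∈ F, t ∉ S → ∀ t' ∈ F, t' ∉ S → exn S t ≠ exn S t' →
        ∃ γ, γ < exl S t ∧ γ < exl S t' ∧ t.res γ = t'.res γ ∧ t.fn γ ≠ t'.fn γ ∧
          ent q'.1 t γ) := by
  classical
  obtain ⟨h81, h82, _⟩ := h8 S hS
  -- first differences
  have hd : ∀ t t' : Nd, ∃ γ, t ∉ S → t' ∉ S → exn S t ≠ exn S t' →
      γ < exl S t ∧ γ < exl S t' ∧ t.res γ = t'.res γ ∧ t.fn γ ≠ t'.fn γ := by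
    intro t t'
    by_cases h : t ∉ S ∧ t' ∉ S ∧ exn S t ≠ exn S t'
    · obtain ⟨γ, hγ⟩ := h82 t t' h.1 h.2.1 h.2.2
      exact ⟨γ, fun _ _ _ => hγ⟩
    · exact ⟨0, fun h1 h2 h3 => absurd ⟨h1, h2, h3⟩ h⟩
  choose d hd using hd
  set A : Set Nd := {t | t ∈ F ∧ t ∉ S ∧ 0 < t.len} with hA
  set Γ : Nd → Set Th := fun t => {0} ∪ R t ∪
    (⋃ t' ∈ F, {γ | γ < exl S t ∧ ent q.1 t' γ}) ∪
    ((fun t' => d t t') '' {t' | t' ∈ F ∧ t' ∉ S ∧ exn S t ≠ exn S t'}) with hΓdef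
  have hΓc : ∀ t, (Γ t).Countable := by
    intro t
    refine (((countable_singleton _).union (hR t)).union ?_).union ?_
    · exact hF.biUnion (fun t' _ => (cnt_ent q t').mono (fun γ hγ => hγ.2))
    · exact (hF.mono (fun t' ht' => ht'.1)).image _
  have hΓlt : ∀ t ∈ A, ∀ γ ∈ Γ t, γ < t.len := by
    rintro t ⟨h1, h2, h3⟩ γ (((hγ | hγ) | hγ) | hγ)
    · rw [mem_singleton_iff] at hγ
      rw [hγ]
      exact h3
    · exact hR2 t γ hγ
    · simp only [mem_iUnion] at hγ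
      obtain ⟨t', _, hγ'⟩ := hγ
      exact hγ'.1.trans_le (h81 t h2).1
    · obtain ⟨t', ⟨_, h5, h6⟩, rfl⟩ := hγ
      exact (hd t t' h2 h5 h6).1.trans_le (h81 t h2).1
  have hrow := fun t => row (q.1 t) (cnt_row q t) (Γ t) (hΓc t) ⟨0, Or.inl (Or.inl (Or.inl rfl))⟩ false
  choose s θ hs1 hs2 hs3 hs4 using hrow
  have a1 : ∀ t ∈ A, {ξ | s t ξ ≠ none}.Countable := by
    intro t _
    exact (cnt_Iio_W1 (θ t)).mono (fun ξ hξ => (hs2 t ξ).1 hξ)
  have a2 : ∀ t ∈ A, ∀ ξ v, s t ξ = some v → v.1 < t.len := by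
    intro t ht ξ v hv
    rcases hs3 t ξ v hv with h | h
    · exact q.2.bd _ _ _ h
    · exact hΓlt t ht _ h.1
  obtain ⟨q', hq', hoff, hq's⟩ := updCnd q A (hF.mono (fun t ht => ht.1)) s a1 a2
    (fun t _ ξ v hv => hs1 t ξ v hv)
  have hent : ∀ t ∈ A, ∀ γ ∈ Γ t, ent q'.1 t γ := by
    intro t ht γ hγ
    obtain ⟨ξ, hξ⟩ := hs4 t γ hγ
    exact ⟨ξ, false, by rw [hq's t ht]; exact hξ⟩
  have hpos : ∀ t ∈ F, t ∉ S → ∀ γ, γ < t.len → t ∈ A := by
    intro t h1 h2 γ hγ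
    exact ⟨h1, h2, (zero_le (a := γ)).trans_lt hγ⟩
  refine ⟨q', hq', ?_, ?_, ?_, ?_⟩
  · intro t h1 h2 h3
    refine ⟨θ t, ?_⟩
    rw [hq's t ⟨h1, h2, h3⟩]
    exact hs2 t
  · intro t h1 h2 γ hγ
    exact hent t (hpos t h1 h2 γ (hR2 t γ hγ)) γ (Or.inl (Or.inl (Or.inr hγ)))
  · intro t h1 h2 t' h3 h4 _ γ h6 h7
    refine hent t (hpos t h1 h2 γ (h6.trans_le (h81 t h2).1)) γ (Or.inl (Or.inr ?_))
    simp only [mem_iUnion]
    exact ⟨t', h3, h6, h7⟩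
  · intro t h1 h2 t' h3 h4 h5
    obtain ⟨e1, e2, e3, e4⟩ := hd t t' h2 h4 h5
    refine ⟨d t t', e1, e2, e3, e4, ?_⟩
    refine hent t (hpos t h1 h2 _ (e1.trans_le (h81 t h2).1)) _ (Or.inr ?_)
    exact ⟨t', ⟨h3, h4, h5⟩, rfl⟩

/-- Module C3. -/
theorem c3 (h8 : C8Ex) : C3Cl := by
  intro R hR hR2 S hS F hF p
  have hst := fun (x : {x : Cnd × Set Nd // x.2.Countable}) => c3_step R hR hR2 S h8 hS x.1.2 x.2 x.1.1
  choose nx n1 n2 n3 n4 n5 using hst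
  let nf : {x : Cnd × Set Nd // x.2.Countable} → Set Nd := fun x =>
    x.1.2 ∪ ⋃ t ∈ x.1.2, (fun γ => t.res γ) '' {γ | ent x.1.1.1 t γ}
  have hnf : ∀ x, (nf x).Countable := fun x =>
    x.2.union (x.2.biUnion (fun t _ => (cnt_ent x.1.1 t).image _))
  let u : ℕ → {x : Cnd × Set Nd // x.2.Countable} := fun n =>
    Nat.rec ⟨(p, F), hF⟩ (fun _ x => ⟨(nx x, nf x), hnf x⟩) n
  have hu : ∀ n, u (n + 1) = ⟨(nx (u n), nf (u n)), hnf (u n)⟩ := fun n => rfl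
  have hu0 : u 0 = ⟨(p, F), hF⟩ := rfl
  have hdec : ∀ n, (u (n + 1)).1.1 ≤ (u n).1.1 := fun n => n1 (u n)
  have hinc : ∀ n, (u n).1.2 ⊆ (u (n + 1)).1.2 := fun n t ht => Or.inl ht
  have hinc' : ∀ m n, m ≤ n → (u m).1.2 ⊆ (u n).1.2 := by
    intro m n hmn
    induction hmn with
    | refl => exact Subset.refl _
    | step _ ih => exact ih.trans (hinc _)
  have hdec' : ∀ m n, m ≤ n → (u n).1.1 ≤ (u m).1.1 := by
    intro m n hmn
    induction hmn with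
    | refl => exact le_refl _
    | step _ ih => exact (hdec _).trans ih
  obtain ⟨q, hq, hq'⟩ := lim (fun n => (u n).1.1) hdec
  have hentq : ∀ n t γ, ent (u n).1.1.1 t γ → ent q.1 t γ := by
    rintro n t γ ⟨ξ, i, h⟩
    exact ⟨ξ, i, hq n t ξ _ h⟩
  have hentq' : ∀ t γ, ent q.1 t γ → ∃ n, ∀ m, n ≤ m → ent (u m).1.1.1 t γ := by
    rintro t γ ⟨ξ, i, h⟩
    obtain ⟨n, hn⟩ := hq' t ξ _ h
    exact ⟨n, fun m hm => ⟨ξ, i, hdec' n m hm t ξ _ hn⟩⟩
  refine ⟨q, hq 0, ⋃ n, (u n).1.2, subset_iUnion (fun n => (u n).1.2) 0, ?_, ?_⟩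
  · refine ⟨countable_iUnion (fun n => (u n).2), ?_, ?_, ?_, ?_⟩
    · -- dom
      intro t ht htS
      obtain ⟨n, hn⟩ := mem_iUnion.1 ht
      rcases eq_or_ne t.len 0 with h0 | h0
      · have hlim : (0 : Th) < o1 := Ordinal.omega_pos 1
        refine ⟨⟨0, hlim⟩, fun ξ => ?_⟩
        constructor
        · intro h
          obtain ⟨v, hv⟩ := Option.ne_none_iff_exists'.1 h
          have := q.2.bd t ξ v hv
          rw [h0] at this
          exact absurd this (not_lt.2 (zero_le (a := v.1)))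
        · intro h
          have h' : ξ.1 < 0 := h
          exact absurd h' (not_lt.2 (zero_le (a := ξ.1)))
      · have hpos : 0 < t.len := pos_iff_ne_zero.2 h0
        refine lower_W1 {ξ | q.1 t ξ ≠ none} (cnt_row q t) ?_
        intro ξ hξ η hη
        obtain ⟨v, hv⟩ := Option.ne_none_iff_exists'.1 hξ
        obtain ⟨m, hm⟩ := hq' t ξ v hv
        have hm' : (u (max m n + 1)).1.1.1 t ξ = some v :=
          hdec' m (max m n + 1) ((le_max_left _ _).trans (Nat.le_succ _)) t ξ v hm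
        obtain ⟨θ, hθ⟩ := n2 (u (max m n)) t (hinc' n _ (le_max_right _ _) hn) htS hpos
        have h1 : ξ < θ := by
          rw [← hθ ξ]
          change (u (max m n + 1)).1.1.1 t ξ ≠ none
          rw [hm']
          exact Option.some_ne_none _
        have h2 : (u (max m n + 1)).1.1.1 t η ≠ none := (hθ η).2 (hη.trans h1)
        obtain ⟨w, hw⟩ := Option.ne_none_iff_exists'.1 h2
        change q.1 t η ≠ none
        rw [hq (max m n + 1) t η w hw]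
        exact Option.some_ne_none _
    · -- sub
      intro t ht _ γ hγ
      obtain ⟨n, hn⟩ := mem_iUnion.1 ht
      obtain ⟨m, hm⟩ := hentq' t γ hγ
      refine mem_iUnion.2 ⟨max m n + 1, ?_⟩
      refine Or.inr ?_
      simp only [mem_iUnion]
      exact ⟨t, hinc' n _ (le_max_right _ _) hn, γ, hm _ (le_max_left _ _), rfl⟩
    · -- same
      intro t ht htS t' ht' htS' heq γ hγ h
      obtain ⟨n, hn⟩ := mem_iUnion.1 ht
      obtain ⟨n', hn'⟩ := mem_iUnion.1 ht'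
      obtain ⟨m, hm⟩ := hentq' t γ h
      have hlen : exl S t = exl S t' := by rw [← exn_len, heq, exn_len]
      set k := max m (max n n') with hk
      have e1 : t ∈ (u k).1.2 := hinc' n _ ((le_max_left _ _).trans (le_max_right _ _)) hn
      have e2 : t' ∈ (u k).1.2 := hinc' n' _ ((le_max_right _ _).trans (le_max_right _ _)) hn'
      refine hentq (k + 1) t' γ ?_
      exact n4 (u k) t' e2 htS' t e1 htS heq.symm γ (hlen ▸ hγ) (hm k (le_max_left _ _))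
    · -- diff
      intro t ht htS t' ht' htS' hne
      obtain ⟨n, hn⟩ := mem_iUnion.1 ht
      obtain ⟨n', hn'⟩ := mem_iUnion.1 ht'
      obtain ⟨γ, h1, h2, h3, h4, h5⟩ := n5 (u (max n n')) t (hinc' n _ (le_max_left _ _) hn) htS t'
        (hinc' n' _ (le_max_right _ _) hn') htS' hne
      exact ⟨γ, h1, h2, h3, h4, hentq (max n n' + 1) t γ h5⟩
  · intro t ht htS γ hγ
    obtain ⟨n, hn⟩ := mem_iUnion.1 ht
    exact hentq (n + 1) t γ (n3 (u n) t hn htS γ hγ)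

end Pool.Agent.CTD.H3
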