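import Pool.Agent.Helper3_CTD.C8

/-! # CTD modules C4, C5, C6: decided region, pattern extension, density -/

set_option autoImplicit false

open Set

namespace Pool.Agent.CTD.H3

/-- the value at a node with a bad entry of `q` is computed in the row of `q` -/
theorem fv_row {q e : Ev} {b : Br} {t : Nd} (hext : Ext e q) {θ : W1}
    (hθ : ∀ ξ, q t ξ ≠ none ↔ ξ < θ) (h : ∃ γ, ent q t γ ∧ bad (fv e b) t γ) :
    fv e b t = pick (q t) (bad (fv e b) t) := by
  obtain ⟨γ, ⟨ξ, i, hξ⟩, hb⟩ := h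
  rw [fv_of_bad e b t γ hb]
  exact pick_ext hθ (fun ξ v hv => hext t ξ v hv) ⟨ξ, _, hξ, hb⟩

/-- Module C4. -/
theorem c4 (h8 : C8Ex) : C4Dr := by
  intro q S F hS hC
  obtain ⟨h81, _, _⟩ := h8 S hS
  constructor
  · intro e he b
    have key : ∀ (n : Th) (t : Nd), t.len = n → t ∈ F → t ∉ S →
        (∃ γ < exl S t, ent q t γ ∧ fv e b (t.res γ) ≠ t.fn γ) → fv e b t = dec q S (fv e b) t := by
      intro n
      induction n using WellFoundedLT.induction with
      | _ n ih =>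
      intro t hn htF htS hγ
      subst hn
      obtain ⟨γ1, hγ1, hent, hne⟩ := hγ
      obtain ⟨h1, h2, h3, h4⟩ := h81 t htS
      obtain ⟨θ, hθ⟩ := hC.dom t htF htS
      rw [fv_row he hθ ⟨γ1, hent, hγ1.trans_le h1, hne⟩, dec_out q S _ t htS]
      refine pick_congr (fun ξ v hv => ?_)
      unfold bad
      refine exists_congr (fun hlt => ?_)
      have hev : ent q t v.1 := ⟨ξ, v.2, hv⟩
      have hsub := hC.sub t htF htS v.1 hev
      have heq : fv e b (t.res v.1) = dec q S (fv e b) (t.res v.1) := by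
        by_cases hS' : t.res v.1 ∈ S
        · rw [dec_in q S _ _ hS']
        · have hle : exl S t ≤ v.1 := exl_le_of hS'
          obtain ⟨_, h6, h7⟩ := h4 v.1 hle hlt.le
          refine ih v.1 hlt (t.res v.1) rfl hsub hS' ⟨γ1, ?_, ?_, ?_⟩
          · rw [h6]; exact hγ1
          · exact hC.same t htF htS (t.res v.1) hsub hS' h7.symm γ1 hγ1 hent
          · rw [res_res _ (hγ1.le.trans hle), res_fn _ (hγ1.trans_le hle)]
            exact hne
      rw [heq]
    intro t htF htS hγ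
    exact key t.len t rfl htF htS hγ
  · intro π π' hπ
    have key : ∀ (n : Th) (t : Nd), t.len = n → t ∈ F → dec q S π t = dec q S π' t := by
      intro n
      induction n using WellFoundedLT.induction with
      | _ n ih =>
      intro t hn htF
      subst hn
      by_cases htS : t ∈ S
      · rw [dec_in q S _ _ htS, dec_in q S _ _ htS]
        exact hπ t ⟨htF, htS⟩
      · rw [dec_out q S _ t htS, dec_out q S _ t htS]
        refine pick_congr (fun ξ v hv => ?_)
        unfold bad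
        refine exists_congr (fun hlt => ?_)
        rw [ih v.1 hlt (t.res v.1) rfl (hC.sub t htF htS v.1 ⟨ξ, v.2, hv⟩)]
    exact fun t htF => key t.len t rfl htF

/-- Module C5. -/
theorem c5 (h8 : C8Ex) : C5Pa := by
  intro q S F hS hC q' hq' hoff r e0 b0 he0 hb0 Γ hΓ hΓr
  rcases Γ.eq_empty_or_nonempty with hΓe | hΓn
  · refine ⟨q', le_refl _, ?_⟩
    intro e _ b _ h2
    obtain ⟨γ, hγ, _⟩ := h2
    rw [hΓe] at hγ
    exact absurd hγ (notMem_empty γ)
  obtain ⟨h81, _, _⟩ := h8 S hS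
  set A : Set Nd := {t | t ∈ F ∧ t ∉ S ∧ exn S t = r} with hA
  have hrow := fun t => row (q.1 t) (cnt_row q t) Γ hΓ hΓn (fv e0 b0 t)
  choose s θ hs1 hs2 hs3 hs4 using hrow
  have hlen : ∀ t ∈ A, r.len = exl S t := by
    rintro t ⟨_, _, rfl⟩
    rfl
  have a1 : ∀ t ∈ A, {ξ | s t ξ ≠ none}.Countable := by
    intro t _
    exact (cnt_Iio_W1 (θ t)).mono (fun ξ hξ => (hs2 t ξ).1 hξ)
  have a2 : ∀ t ∈ A, ∀ ξ v, s t ξ = some v → v.1 < t.len := by
    intro t ht ξ v hv
    rcases hs3 t ξ v hv with h | h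
    · exact q.2.bd _ _ _ h
    · have h1 := hΓr _ h.1
      rw [hlen t ht] at h1
      exact h1.trans_le (h81 t ht.2.1).1
  have a3 : ∀ t ∈ A, ∀ ξ v, q'.1 t ξ = some v → s t ξ = some v := by
    intro t ht ξ v hv
    rw [hoff t ht.2.1] at hv
    exact hs1 t ξ v hv
  obtain ⟨q'', hq'', _, hq''s⟩ := updCnd q' A (hC.cnt.mono (fun t ht => ht.1)) s a1 a2 a3
  refine ⟨q'', hq'', ?_⟩
  intro e he b hvr hur
  have key : ∀ (n : Th) (t : Nd), t.len = n → t ∈ A → fv e b t = fv e0 b0 t := by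
    intro n
    induction n using WellFoundedLT.induction with
    | _ n ih =>
    intro t hn htA
    subst hn
    obtain ⟨htF, htS, hex⟩ := htA
    obtain ⟨h1, h2, h3, h4⟩ := h81 t htS
    have hl : r.len = exl S t := hlen t ⟨htF, htS, hex⟩
    have hresr : t.res (exl S t) = r := hex
    have hrlow : ∀ γ < exl S t, r.res γ = t.res γ ∧ r.fn γ = t.fn γ := by
      intro γ hγ
      rw [← hresr, res_res _ hγ.le, res_fn _ hγ]
      exact ⟨rfl, rfl⟩
    -- badness of the entries of `q t`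
    have hbad : ∀ γ, ent q.1 t γ → (bad (fv e b) t γ ↔ bad (fv e0 b0) t γ) := by
      intro γ hγ
      by_cases hS' : t.res γ ∈ S
      · have hlt : γ < exl S t := by
          by_contra hcon
          have hle : exl S t ≤ γ := not_lt.1 hcon
          have hγl : γ < t.len := by
            obtain ⟨ξ, i, h⟩ := hγ
            exact q.2.bd _ _ _ h
          exact (h4 γ hle hγl.le).1 hS'
        have hG : γ ∈ Gam q.1 S F r := ⟨by rw [hl]; exact hlt, t, htF, htS, hex, hγ⟩
        have g1 : fv e b (t.res γ) = t.fn γ := by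
          have := hvr γ hG
          rw [(hrlow γ hlt).1, (hrlow γ hlt).2] at this
          exact this
        have g2 : fv e0 b0 (t.res γ) = t.fn γ := by
          have := hb0 γ hG
          rw [(hrlow γ hlt).1, (hrlow γ hlt).2] at this
          exact this
        exact ⟨fun ⟨_, h⟩ => absurd g1 h, fun ⟨_, h⟩ => absurd g2 h⟩
      · unfold bad
        refine exists_congr (fun hlt => ?_)
        have hle : exl S t ≤ γ := exl_le_of hS'
        obtain ⟨_, _, h7⟩ := h4 γ hle hlt.le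
        rw [ih γ hlt (t.res γ) rfl ⟨hC.sub t htF htS γ hγ, hS', h7.trans hex⟩]
    have hextq : Ext e q.1 := (he.trans hq'').trans hq'
    by_cases hcase : ∃ γ, ent q.1 t γ ∧ bad (fv e b) t γ
    · obtain ⟨γ, hγ, hbγ⟩ := hcase
      obtain ⟨θ', hθ'⟩ := hC.dom t htF htS
      rw [fv_row hextq hθ' ⟨γ, hγ, hbγ⟩, fv_row he0 hθ' ⟨γ, hγ, (hbad γ hγ).1 hbγ⟩]
      exact pick_congr (fun ξ v hv => hbad v.1 ⟨ξ, v.2, hv⟩)
    · obtain ⟨γ, hγΓ, hγne⟩ := hur
      have hγl : γ < exl S t := by rw [← hl]; exact hΓr γ hγΓ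
      rw [(hrlow γ hγl).1, (hrlow γ hγl).2] at hγne
      have hbγ : bad (fv e b) t γ := ⟨hγl.trans_le h1, hγne⟩
      have hrowt : q''.1 t = s t := hq''s t ⟨htF, htS, hex⟩
      obtain ⟨ξ0, hξ0⟩ := hs4 t γ hγΓ
      have hθ'' : ∀ ξ, q''.1 t ξ ≠ none ↔ ξ < θ t := by rw [hrowt]; exact hs2 t
      have hentγ : ent q''.1 t γ := ⟨ξ0, _, by rw [hrowt]; exact hξ0⟩
      rw [fv_row he hθ'' ⟨γ, hentγ, hbγ⟩, hrowt]
      obtain ⟨ξ, γ', i, g1, g2, g3⟩ := exists_first (s := s t) (Bad := bad (fv e b) t) ⟨ξ0, _, hξ0, hbγ⟩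
      rw [pick_eq g1 g2 g3]
      rcases hs3 t ξ _ g1 with h | h
      · exact absurd ⟨γ', ⟨ξ, i, h⟩, g2⟩ hcase
      · exact h.2
  intro t htF htS hex
  exact key t.len t rfl ⟨htF, htS, hex⟩

/-- Module C6. -/
theorem c6 (h3 : C3Cl) : C6Dn := by
  intro p b F hF
  classical
  -- first differences
  have hd : ∀ t : Nd, ∃ γ, ¬ (∀ x < t.len, b x = t.fn x) →
      γ < t.len ∧ (∀ x < γ, b x = t.fn x) ∧ b γ ≠ t.fn γ := by
    intro t
    by_cases h : ∀ x < t.len, b x = t.fn x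
    · exact ⟨0, fun h' => absurd h h'⟩
    · obtain ⟨γ, h1, h2, h3⟩ := first_diff h
      exact ⟨γ, fun _ => ⟨h1, h2, h3⟩⟩
  choose d hd using hd
  let R : Nd → Set Th := fun t => {γ | γ = d t ∧ ¬ ∀ x < t.len, b x = t.fn x}
  have hR : ∀ t, (R t).Countable := fun t => (countable_singleton (d t)).mono (fun γ hγ => hγ.1)
  have hR2 : ∀ t, ∀ γ ∈ R t, γ < t.len := by
    rintro t γ ⟨rfl, h⟩
    exact (hd t h).1
  obtain ⟨q, hq, F', hFF', hC, hRe⟩ := h3 R hR hR2 ∅ (fun t ht => absurd ht (notMem_empty t)) F hF p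
  have hsub : ∀ t ∈ F', ∀ γ, ent q.1 t γ → t.res γ ∈ F' := fun t ht γ hγ =>
    hC.sub t ht (notMem_empty t) γ hγ
  have hdent : ∀ t ∈ F', ¬ (∀ x < t.len, b x = t.fn x) → ent q.1 t (d t) := fun t ht h =>
    hRe t ht (notMem_empty t) (d t) ⟨rfl, h⟩
  -- claim 1
  have claim1 : ∀ e, Ext e q.1 → ∀ (n : Th) (t : Nd), t.len = n → t ∈ F' → fv e b t = fv q.1 b t := by
    intro e he n
    induction n using WellFoundedLT.induction with
    | _ n ih =>
    intro t hn htF
    subst hn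
    by_cases hb : ∀ x < t.len, b x = t.fn x
    · rw [fv_on e b t hb, fv_on q.1 b t hb]
    · obtain ⟨g1, g2, g3⟩ := hd t hb
      obtain ⟨θ, hθ⟩ := hC.dom t htF (notMem_empty t)
      rw [fv_row he hθ ⟨d t, hdent t htF hb, bad_of_leave e b t _ g1 g2 g3⟩,
        fv_row (Ext.refl _) hθ ⟨d t, hdent t htF hb, bad_of_leave q.1 b t _ g1 g2 g3⟩]
      refine pick_congr (fun ξ v hv => ?_)
      unfold bad
      refine exists_congr (fun hlt => ?_)
      rw [ih v.1 hlt (t.res v.1) rfl (hsub t htF v.1 ⟨ξ, v.2, hv⟩)]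
  -- the ordinal `δ`
  have hCc : ({x : W1 | x.1 ∈ (⋃ t ∈ F', {γ | ent q.1 t γ}) ∪ (fun t : Nd => t.len) '' F'}).Countable := by
    have hc : ((⋃ t ∈ F', {γ | ent q.1 t γ}) ∪ (fun t : Nd => t.len) '' F' : Set Th).Countable :=
      (hC.cnt.biUnion (fun t _ => cnt_ent q t)).union (hC.cnt.image _)
    exact hc.preimage Subtype.val_injective
  obtain ⟨δ, hδ⟩ := bdd_W1 _ hCc
  have hδent : ∀ t ∈ F', ∀ γ, ent q.1 t γ → γ < o1 → γ < δ.1 := by
    intro t ht γ hγ hlt
    refine hδ ⟨γ, hlt⟩ (Or.inl ?_)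
    simp only [mem_iUnion]
    exact ⟨t, ht, hγ⟩
  have hδlen : ∀ t ∈ F', δ.1 ≤ t.len → o1 ≤ t.len := by
    intro t ht hle
    by_contra hcon
    have h1 : t.len < o1 := not_le.1 hcon
    have h2 : t.len < δ.1 := hδ ⟨t.len, h1⟩ (Or.inr ⟨t, ht, rfl⟩)
    exact absurd h2 (not_lt.2 hle)
  set A : Set Nd := {t | t ∈ F' ∧ o1 ≤ t.len ∧ ∀ x ≤ δ.1, b x = t.fn x} with hA
  have hrow := fun t => row (q.1 t) (cnt_row q t) {δ.1} (countable_singleton _) (singleton_nonempty _)
    (fv q.1 b t)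
  choose s θ hs1 hs2 hs3 hs4 using hrow
  have a1 : ∀ t ∈ A, {ξ | s t ξ ≠ none}.Countable := by
    intro t _
    exact (cnt_Iio_W1 (θ t)).mono (fun ξ hξ => (hs2 t ξ).1 hξ)
  have a2 : ∀ t ∈ A, ∀ ξ v, s t ξ = some v → v.1 < t.len := by
    intro t ht ξ v hv
    rcases hs3 t ξ v hv with h | h
    · exact q.2.bd _ _ _ h
    · have h1 := h.1
      rw [mem_singleton_iff] at h1
      rw [h1]
      exact δ.2.trans_le ht.2.1
  obtain ⟨q'', hq'', _, hq''s⟩ := updCnd q A (hC.cnt.mono (fun t ht => ht.1)) s a1 a2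
    (fun t _ ξ v hv => hs1 t ξ v hv)
  let b' : Br := fun x => if x < δ.1 then b x else if x = δ.1 then !(b x) else false
  have hb'1 : ∀ x < δ.1, b' x = b x := fun x hx => if_pos hx
  have hb'2 : b' δ.1 = !(b δ.1) := by
    change (if δ.1 < δ.1 then b δ.1 else if δ.1 = δ.1 then !(b δ.1) else false) = _
    rw [if_neg (lt_irrefl _), if_pos rfl]
  have hb'3 : ∀ x, δ.1 < x → b' x = false := by
    intro x hx
    change (if x < δ.1 then b x else if x = δ.1 then !(b x) else false) = _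
    rw [if_neg (not_lt.2 hx.le), if_neg hx.ne']
  refine ⟨q'', hq''.trans hq, b', ?_, ?_⟩
  · refine ⟨Order.succ δ.1, ?_, fun x hx => hb'3 x (Order.succ_le_iff.1 hx)⟩
    have h3 := Cardinal.isSuccLimit_ord (Cardinal.aleph0_le_aleph 1)
    rw [Cardinal.ord_aleph] at h3
    exact h3.succ_lt δ.2
  · intro e he
    have hextq : Ext e q.1 := he.trans hq''
    have key : ∀ (n : Th) (t : Nd), t.len = n → t ∈ F' → fv e b' t = fv e b t := by
      intro n
      induction n using WellFoundedLT.induction with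
      | _ n ih =>
      intro t hn htF
      subst hn
      rcases lt_or_ge t.len δ.1 with hlen | hlen
      · exact fv_congr e b' b δ.1 (fun x hx => hb'1 x hx) t hlen
      have hlen' := hδlen t htF hlen
      have hδt : δ.1 < t.len := δ.2.trans_le hlen'
      obtain ⟨θ', hθ'⟩ := hC.dom t htF (notMem_empty t)
      have hbad : ∀ γ, ent q.1 t γ → (bad (fv e b') t γ ↔ bad (fv e b) t γ) := by
        intro γ hγ
        unfold bad
        refine exists_congr (fun hlt => ?_)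
        rw [ih γ hlt (t.res γ) rfl (hsub t htF γ hγ)]
      have hboth : (∃ γ, ent q.1 t γ ∧ bad (fv e b') t γ) → fv e b' t = fv e b t := by
        rintro ⟨γ, hγ, hbγ⟩
        rw [fv_row hextq hθ' ⟨γ, hγ, hbγ⟩, fv_row hextq hθ' ⟨γ, hγ, (hbad γ hγ).1 hbγ⟩]
        exact pick_congr (fun ξ v hv => hbad v.1 ⟨ξ, v.2, hv⟩)
      by_cases hbt : ∀ x ≤ δ.1, b x = t.fn x
      · -- `t` in `A`
        by_cases hcase : ∃ γ, ent q.1 t γ ∧ bad (fv e b') t γ
        · exact hboth hcase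
        · have hleave : bad (fv e b') t δ.1 := by
            refine bad_of_leave e b' t δ.1 hδt (fun x hx => ?_) ?_
            · rw [hb'1 x hx, hbt x hx.le]
            · rw [hb'2, hbt δ.1 (le_refl _)]
              cases t.fn δ.1 <;> simp
          have htA : t ∈ A := ⟨htF, hlen', hbt⟩
          have hrowt : q''.1 t = s t := hq''s t htA
          obtain ⟨ξ0, hξ0⟩ := hs4 t δ.1 rfl
          have hθ'' : ∀ ξ, q''.1 t ξ ≠ none ↔ ξ < θ t := by rw [hrowt]; exact hs2 t
          have hentγ : ent q''.1 t δ.1 := ⟨ξ0, _, by rw [hrowt]; exact hξ0⟩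
          rw [fv_row he hθ'' ⟨δ.1, hentγ, hleave⟩, hrowt]
          obtain ⟨ξ, γ', i, g1, g2, g3⟩ := exists_first (s := s t) (Bad := bad (fv e b') t)
            ⟨ξ0, _, hξ0, hleave⟩
          rw [pick_eq g1 g2 g3]
          rcases hs3 t ξ _ g1 with h | h
          · exact absurd ⟨γ', ⟨ξ, i, h⟩, g2⟩ hcase
          · rw [claim1 e hextq t.len t rfl htF]
            exact h.2
      · -- `t` not in `A`
        have hnb : ¬ ∀ x < t.len, b x = t.fn x := fun h => hbt (fun x hx => h x (hx.trans_lt hδt))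
        obtain ⟨g1, g2, g3⟩ := hd t hnb
        have hdle : d t ≤ δ.1 := by
          by_contra hcon
          exact hbt (fun x hx => g2 x (hx.trans_lt (not_le.1 hcon)))
        have hen := hdent t htF hnb
        have hdlt : d t < δ.1 := hδent t htF (d t) hen (hdle.trans_lt δ.2)
        refine hboth ⟨d t, hen, ?_⟩
        rw [hbad (d t) hen]
        exact bad_of_leave e b t (d t) g1 g2 g3
    intro t ht
    exact key t.len t rfl (hFF' ht)

end Pool.Agent.CTD.H3
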