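import Pool.Agent.Helper3_CTD.C8

/-! # CTD modules C7, C2: orthogonal nodes, deciding values -/

set_option autoImplicit false

open Set

namespace Pool.Agent.CTD.H3

/-- changing one row -/
theorem upd_one (p : Cnd) (t : Nd) (Γ : Set Th) (hΓ : Γ.Countable) (hne : Γ.Nonempty)
    (hlt : ∀ γ ∈ Γ, γ < t.len) (i : Bool) :
    ∃ q ≤ p, Off {t} q p ∧ ∃ θ : W1, (∀ ξ, q.1 t ξ ≠ none ↔ ξ < θ) ∧
      (∀ ξ v, q.1 t ξ = some v → p.1 t ξ = some v ∨ (v.1 ∈ Γ ∧ v.2 = i)) ∧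
      ∀ γ ∈ Γ, ∃ ξ, q.1 t ξ = some (γ, i) := by
  obtain ⟨s, θ, h1, h2, h3, h4⟩ := row (p.1 t) (cnt_row p t) Γ hΓ hne i
  have a1 : ∀ t' ∈ ({t} : Set Nd), {ξ | s ξ ≠ none}.Countable := by
    intro t' _
    refine (cnt_Iio_W1 θ).mono ?_
    intro ξ hξ
    exact (h2 ξ).1 hξ
  have a2 : ∀ t' ∈ ({t} : Set Nd), ∀ ξ v, s ξ = some v → v.1 < t'.len := by
    intro t' ht' ξ v hv
    rw [mem_singleton_iff] at ht'
    subst ht'
    rcases h3 ξ v hv with h | h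
    · exact p.2.bd _ _ _ h
    · exact hlt _ h.1
  have a3 : ∀ t' ∈ ({t} : Set Nd), ∀ ξ v, p.1 t' ξ = some v → s ξ = some v := by
    intro t' ht' ξ v hv
    rw [mem_singleton_iff] at ht'
    subst ht'
    exact h1 ξ v hv
  obtain ⟨q, hq, hoff, hs⟩ := updCnd p {t} (countable_singleton t) (fun _ => s) a1 a2 a3
  refine ⟨q, hq, hoff, θ, ?_, ?_, ?_⟩
  · rw [hs t rfl]; exact h2
  · rw [hs t rfl]; exact h3
  · rw [hs t rfl]; exact h4

/-- Module C7. -/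
theorem c7 : C7Or := by
  have key : ∀ (n : Th) (t : Nd), t.len = n → ∀ (p : Cnd) (r : Nd) (γ0 : Th), γ0 < t.len →
      γ0 < r.len → t.res γ0 = r.res γ0 → t.fn γ0 ≠ r.fn γ0 →
      ∃ q ≤ p, Off {t' | ∃ γ, γ0 < γ ∧ γ ≤ t.len ∧ t' = t.res γ} q p ∧
        ∃ Γ : Set Th, Γ.Countable ∧ (∀ γ ∈ Γ, γ ≤ γ0) ∧ ∃ i : Bool,
          Ent q {e | ∀ b, (∀ γ ∈ Γ, fv e b (r.res γ) = r.fn γ) → fv e b t = i} := by
    intro n
    induction n using WellFoundedLT.induction with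
    | _ n ih =>
    intro t hn p r γ0 ht hr hres hfn
    subst hn
    set A : Set Nd := {t' | ∃ γ, γ0 < γ ∧ γ ≤ t.len ∧ t' = t.res γ} with hA
    have htA : t ∈ A := ⟨t.len, ht, le_refl _, (res_self t).symm⟩
    obtain ⟨p1, hp1, hoff1, θ, hθ, hnew, hin⟩ := upd_one p t {γ0} (countable_singleton _)
      (singleton_nonempty _) (fun γ hγ => by rw [mem_singleton_iff] at hγ; rw [hγ]; exact ht) false
    have hoff1' : Off A p1 p := hoff1.mono (fun x hx => by rw [mem_singleton_iff] at hx; rw [hx]; exact htA)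
    -- fusion over the entries above `γ0`
    let ι := {γ : Th // ent p1.1 t γ ∧ γ0 < γ}
    have hcι : Countable ι := ((cnt_ent p1 t).mono (fun γ (h : ent p1.1 t γ ∧ γ0 < γ) => h.1)).to_subtype
    let D : ι → Cnd → Prop := fun γ q => ∃ Γ : Set Th, Γ.Countable ∧ (∀ γ ∈ Γ, γ ≤ γ0) ∧ ∃ i : Bool,
      Ent q {e | ∀ b, (∀ γ ∈ Γ, fv e b (r.res γ) = r.fn γ) → fv e b (t.res γ.1) = i}
    have a1 : ∀ γ p q, q ≤ p → D γ p → D γ q := by
      rintro γ p q hqp ⟨Γ, h1, h2, i, h3⟩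
      exact ⟨Γ, h1, h2, i, h3.mono hqp⟩
    have a2 : ∀ γ p, ∃ q ≤ p, Off A q p ∧ D γ q := by
      rintro ⟨γ, hγ1, hγ2⟩ p'
      have hlt : γ < t.len := by
        obtain ⟨ξ, i, h⟩ := hγ1
        exact p1.2.bd _ _ _ h
      obtain ⟨q, hq, hoff, Γ, h1, h2, i, h3⟩ := ih γ hlt (t.res γ) rfl p' r γ0 hγ2 hr
        (by rw [res_res _ hγ2.le]; exact hres) (by rw [res_fn _ hγ2]; exact hfn)
      refine ⟨q, hq, hoff.mono ?_, Γ, h1, h2, i, h3⟩
      rintro _ ⟨γ', h4, h5, rfl⟩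
      have h5' : γ' ≤ γ := h5
      exact ⟨γ', h4, h5'.trans hlt.le, res_res _ h5'⟩
    obtain ⟨q, hq, hoff, hD⟩ := fusion A D a1 a2 p1
    have hD' : ∀ γ : ι, ∃ Γ : Set Th, Γ.Countable ∧ (∀ γ ∈ Γ, γ ≤ γ0) ∧ ∃ i : Bool,
      Ent q {e | ∀ b, (∀ γ ∈ Γ, fv e b (r.res γ) = r.fn γ) → fv e b (t.res γ.1) = i} := hD
    choose G hG1 hG2 I hI using hD'
    classical
    refine ⟨q, hq.trans hp1, hoff.trans hoff1',
      {γ0} ∪ {γ | ent p1.1 t γ ∧ γ ≤ γ0} ∪ ⋃ γ : ι, G γ, ?_, ?_, ?_⟩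
    · refine ((countable_singleton _).union ((cnt_ent p1 t).mono (fun γ h => h.1))).union ?_
      exact countable_iUnion hG1
    · rintro γ ((h | h) | h)
      · rw [mem_singleton_iff] at h; rw [h]
      · exact h.2
      · obtain ⟨γ', hγ'⟩ := mem_iUnion.1 h
        exact hG2 γ' γ hγ'
    · refine ⟨pick (p1.1 t) (fun γ => γ = γ0 ∨ ∃ h : ent p1.1 t γ ∧ γ0 < γ, I ⟨γ, h⟩ ≠ t.fn γ), ?_⟩
      intro e he b hb
      have hfol : ∀ γ ≤ γ0, γ ∈ ({γ0} ∪ {γ | ent p1.1 t γ ∧ γ ≤ γ0} ∪ ⋃ γ : ι, G γ : Set Th) →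
          fv e b (t.res γ) = r.fn γ := by
        intro γ h1 h2
        rw [res_eq_of_le hres h1]
        exact hb γ h2
      have hbad0 : bad (fv e b) t γ0 := by
        refine ⟨ht, ?_⟩
        rw [hfol γ0 (le_refl _) (Or.inl (Or.inl rfl))]
        exact hfn.symm
      rw [fv_of_bad e b t γ0 hbad0]
      obtain ⟨ξ0, hξ0⟩ := hin γ0 rfl
      have hext : ∀ ξ v, p1.1 t ξ = some v → e t ξ = some v := fun ξ v hv => he t ξ v (hq t ξ v hv)
      rw [pick_ext hθ hext ⟨ξ0, _, hξ0, hbad0⟩]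
      refine pick_congr (fun ξ v hv => ?_)
      have hev : ent p1.1 t v.1 := ⟨ξ, v.2, hv⟩
      have hlt : v.1 < t.len := p1.2.bd _ _ _ hv
      rcases lt_trichotomy v.1 γ0 with h1 | h1 | h1
      · constructor
        · rintro ⟨_, h2⟩
          exfalso
          apply h2
          rw [hfol v.1 h1.le (Or.inl (Or.inr ⟨hev, h1.le⟩))]
          exact (fn_eq_of_res hres h1).symm
        · rintro (h2 | ⟨⟨_, h2⟩, _⟩)
          · exact absurd h2 h1.ne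
          · exact absurd h2 (not_lt.2 h1.le)
      · rw [h1]
        exact ⟨fun _ => Or.inl rfl, fun _ => hbad0⟩
      · have hval : fv e b (t.res v.1) = I ⟨v.1, hev, h1⟩ := by
          refine hI ⟨v.1, hev, h1⟩ e he b (fun γ hγ => ?_)
          exact hb γ (Or.inr (mem_iUnion.2 ⟨_, hγ⟩))
        constructor
        · rintro ⟨_, h2⟩
          right
          refine ⟨⟨hev, h1⟩, ?_⟩
          rw [hval] at h2
          exact h2
        · rintro (h2 | ⟨h2, h3⟩)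
          · exact absurd h2 h1.ne'
          · refine ⟨hlt, ?_⟩
            rw [hval]
            exact h3
  intro p t r γ0 h1 h2 h3 h4
  exact key t.len t rfl p r γ0 h1 h2 h3 h4

/-- Module C2. -/
theorem c2 (h7 : C7Or) : C2De := by
  intro p b D hD
  have := hD.to_subtype
  have a1 : ∀ (t : D) (p q : Cnd), q ≤ p → (∃ i : Bool, Ent p {e | fv e b t.1 = i}) →
      ∃ i : Bool, Ent q {e | fv e b t.1 = i} := by
    rintro t p q hqp ⟨i, hi⟩
    exact ⟨i, hi.mono hqp⟩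
  have a2 : ∀ (t : D) (p : Cnd), ∃ q ≤ p, Off Set.univ q p ∧
      ∃ i : Bool, Ent q {e | fv e b t.1 = i} := by
    rintro ⟨t, _⟩ p'
    by_cases hb : ∀ x < t.len, b x = t.fn x
    · exact ⟨p', le_refl _, fun _ _ => rfl, b t.len, fun e _ => fv_on e b t hb⟩
    · obtain ⟨γ0, hγ0, heq, hne⟩ := first_diff hb
      have hlt : γ0 < Order.succ γ0 := Order.lt_succ γ0
      have b1 : t.res γ0 = (brr b (Order.succ γ0)).res γ0 := by
        rw [brr_res b hlt.le]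
        refine Nd.ext' rfl (fun x hx => ?_)
        rw [res_len] at hx
        rw [res_fn _ hx, brr_fn _ hx, heq x hx]
      have b2 : t.fn γ0 ≠ (brr b (Order.succ γ0)).fn γ0 := by
        rw [brr_fn b hlt]
        exact hne.symm
      obtain ⟨q, hq, _, Γ, _, hΓ, i, hi⟩ := h7 p' t (brr b (Order.succ γ0)) γ0 hγ0 hlt b1 b2
      refine ⟨q, hq, fun t' ht' => absurd (mem_univ _) ht', i, ?_⟩
      intro e he
      refine hi e he b (fun γ hγ => ?_)
      have hγ' := hΓ γ hγ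
      rw [brr_res b (hγ'.trans hlt.le), fv_brr, brr_fn b (hγ'.trans_lt hlt)]
  obtain ⟨q, hq, _, h⟩ := fusion (ι := D) Set.univ
    (fun t q => ∃ i : Bool, Ent q {e | fv e b t.1 = i}) a1 a2 p
  refine ⟨q, hq, fv q.1 b, ?_⟩
  intro e he t ht
  obtain ⟨i, hi⟩ := h ⟨t, ht⟩
  have h1 : fv e b t = i := hi e he
  have h2 : fv q.1 b t = i := hi q.1 (Ext.refl _)
  rw [h1, h2]

end Pool.Agent.CTD.H3
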