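import Pool.Agent.Helper94_CTD.Stmts

/-! # CTD modules C8, C10: exit lengths, amalgamation -/

set_option autoImplicit false

open Set

namespace Pool.Agent.CTD.H3

/-- the first difference of two functions -/
theorem first_diff {f g : Th → Bool} {μ : Th} (h : ¬ ∀ x < μ, f x = g x) :
    ∃ γ < μ, (∀ x < γ, f x = g x) ∧ f γ ≠ g γ := by
  push Not at h
  obtain ⟨x, hx, hne⟩ := h
  obtain ⟨γ, ⟨h1, h2⟩, hm⟩ := WellFounded.has_min (wellFounded_lt : WellFounded (· < · : Th → Th → Prop))
    {x | x < μ ∧ f x ≠ g x} ⟨x, hx, hne⟩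
  refine ⟨γ, h1, fun y hy => ?_, h2⟩
  by_contra hcon
  exact hm y ⟨hy.trans h1, hcon⟩ hy

theorem exl_le {S : Set Nd} {t : Nd} (ht : t ∉ S) : exl S t ≤ t.len :=
  csInf_le' (show t.res t.len ∉ S by rw [res_self]; exact ht)

theorem exn_notMem {S : Set Nd} {t : Nd} (ht : t ∉ S) : exn S t ∉ S := by
  have h : exl S t ∈ {δ | t.res δ ∉ S} :=
    csInf_mem ⟨t.len, show t.res t.len ∉ S by rw [res_self]; exact ht⟩
  exact h

theorem res_mem_of_lt {S : Set Nd} {t : Nd} {γ : Th} (h : γ < exl S t) : t.res γ ∈ S := by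
  by_contra hcon
  exact absurd (csInf_le' (show γ ∈ {δ | t.res δ ∉ S} from hcon)) (not_le.2 h)

theorem exl_le_of {S : Set Nd} {t : Nd} {γ : Th} (h : t.res γ ∉ S) : exl S t ≤ γ :=
  csInf_le' h

theorem exn_len (S : Set Nd) (t : Nd) : (exn S t).len = exl S t := rfl

theorem res_notMem {S : Set Nd} (hS : RC S) {t : Nd} (ht : t ∉ S) {γ : Th} (h1 : exl S t ≤ γ) :
    t.res γ ∉ S := by
  intro h2
  have h3 := hS _ h2 (exl S t) h1
  rw [res_res _ h1] at h3
  exact exn_notMem ht h3

theorem exl_res {S : Set Nd} (hS : RC S) {t : Nd} (ht : t ∉ S) {γ : Th} (h1 : exl S t ≤ γ) :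
    exl S (t.res γ) = exl S t := by
  apply le_antisymm
  · apply exl_le_of
    rw [res_res _ h1]
    exact exn_notMem ht
  · have h4 := exn_notMem (res_notMem hS ht h1)
    apply exl_le_of
    have h5 : exl S (t.res γ) ≤ γ := exl_le (res_notMem hS ht h1)
    unfold exn at h4
    rw [res_res _ h5] at h4
    exact h4

theorem exn_res {S : Set Nd} (hS : RC S) {t : Nd} (ht : t ∉ S) {γ : Th} (h1 : exl S t ≤ γ) :
    exn S (t.res γ) = exn S t := by
  unfold exn
  rw [exl_res hS ht h1, res_res _ h1]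

theorem exn_eq_of {S : Set Nd} {t t' : Nd} (ht : t ∉ S) (hle : exl S t ≤ exl S t')
    (h : ∀ x < exl S t, t.fn x = t'.fn x) : exn S t = exn S t' := by
  have h1 : t.res (exl S t) = t'.res (exl S t) := res_eq_of_fn h
  have h2 : exl S t' ≤ exl S t := exl_le_of (by rw [← h1]; exact exn_notMem ht)
  have h3 : exl S t = exl S t' := le_antisymm hle h2
  unfold exn
  rw [← h3, h1]

/-- Module C8. -/
theorem c8 : C8Ex := by
  intro S hS
  refine ⟨?_, ?_, ?_⟩
  · intro t ht
    exact ⟨exl_le ht, exn_notMem ht, fun γ h => res_mem_of_lt h,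
      fun γ h1 _ => ⟨res_notMem hS ht h1, exl_res hS ht h1, exn_res hS ht h1⟩⟩
  · intro t t' ht ht' hne
    by_cases h : ∀ x < min (exl S t) (exl S t'), t.fn x = t'.fn x
    · exfalso
      rcases le_total (exl S t) (exl S t') with h1 | h1
      · rw [min_eq_left h1] at h
        exact hne (exn_eq_of ht h1 h)
      · rw [min_eq_right h1] at h
        exact hne (exn_eq_of ht' h1 (fun x hx => (h x hx).symm)).symm
    · obtain ⟨γ, h1, h2, h3⟩ := first_diff h
      exact ⟨γ, h1.trans_le (min_le_left _ _), h1.trans_le (min_le_right _ _), res_eq_of_fn h2, h3⟩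
  · intro r t hr hr2 ht
    by_cases h : ∀ x < min t.len r.len, t.fn x = r.fn x
    · rcases lt_or_ge t.len r.len with h1 | h1
      · left
        rw [min_eq_left h1.le] at h
        refine ⟨t.len, h1, ?_⟩
        rw [← res_eq_of_fn h, res_self]
      · exfalso
        rw [min_eq_right h1] at h
        have h2 := hS t ht r.len h1
        rw [res_eq_of_fn h, res_self] at h2
        exact hr h2
    · right
      obtain ⟨γ, h1, h2, h3⟩ := first_diff h
      exact ⟨γ, h1.trans_le (min_le_left _ _), h1.trans_le (min_le_right _ _), res_eq_of_fn h2, h3⟩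

/-- Module C10. -/
theorem c10 : C10Am := by
  classical
  intro S q s hsq
  let q' : Ev := fun t => if t ∈ S then s.1 t else q.1 t
  have h1 : ∀ t ∈ S, q' t = s.1 t := fun t ht => if_pos ht
  have h2 : ∀ t, t ∉ S → q' t = q.1 t := fun t ht => if_neg ht
  have hc : IsCnd q' := by
    refine ⟨?_, ?_⟩
    · refine (s.2.cnt.union q.2.cnt).mono ?_
      rintro ⟨t, ξ⟩ hx
      have hx' : q' t ξ ≠ none := hx
      by_cases ht : t ∈ S
      · left
        rw [h1 t ht] at hx'
        exact hx'
      · right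
        rw [h2 t ht] at hx'
        exact hx'
    · intro t ξ v hv
      by_cases ht : t ∈ S
      · rw [h1 t ht] at hv
        exact s.2.bd t ξ v hv
      · rw [h2 t ht] at hv
        exact q.2.bd t ξ v hv
  refine ⟨⟨q', hc⟩, ?_, ?_, h2, ?_⟩
  · intro t ξ v hv
    by_cases ht : t ∈ S
    · have hv' : q' t ξ = some v := hv
      rw [h1 t ht] at hv'
      exact hv'
    · have hv' : q' t ξ = some v := hv
      rw [h2 t ht] at hv'
      exact hsq t ξ v hv'
  · intro t ξ v hv
    change q' t ξ = some v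
    by_cases ht : t ∈ S
    · rw [h1 t ht]
      exact hsq t ξ v hv
    · rw [h2 t ht]
      exact hv
  · intro s' hs' hss t ξ v hv
    change q' t ξ = some v
    by_cases ht : t ∈ S
    · rw [h1 t ht]
      exact hss t ξ v hv
    · rw [hs' t ht ξ] at hv
      exact absurd hv (Option.some_ne_none _).symm

end Pool.Agent.CTD.H3
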